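import Pool.Agent.Y128.CV.Mot
import Pool.Agent.Y574.CY.Eig
import Pool.Agent.Y907.CY.REF

/-!
# The motivic Sato-Tate conjecture for products of curves `y ^ n = f(x)`

Let `X_c`, `c` in a finite set, be curves `y ^ n = ∏ (x - a_t) ^ (m_t)` over a finitely generated
subfield `F` of `ℂ` (which need NOT contain the roots of unity or the branch points `a_t`; the curve is
given by an equation `y ^ n = f(x)` over `F`), of any degrees `n = n_c ≥ 3`, with any number `r = r_c` of
branch points except four, and any exponents `m_t`, nonzero modulo `n`, with sum zero. Let `A_c` be the
primitive part of the Jacobian of `X_c` (an abelian variety over `F`; over `F(ζ_n)` the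
automorphism `σ_c` of order `n` acts on it with primitive roots of unity as eigenvalues), `W_c` its
rational homology, `T` the tangent space of `∏ A_c` at the origin, `per` the inclusion of
`⊕ W_c` in `T`, and `V_c` (over `k = ℚ_ℓ`) the rational Tate module with the comparison map
`j c : W_c → V_c`, the action `ρ c` of the Galois group `Γ` of `F` and the cyclotomic character `χ`.
`Δ₀` is the Galois group of a finite extension of `F` which contains the roots of unity. The hypotheses
`CyclicCoverings` for `Δ₀` are explained in MP_938ce2_ag.CyclicCoverings: if `r_c ≥ 5` then the
endomorphism algebra of `A_c` over the closure is generated by `σ_c`, and there is one place where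
exactly two of the branch points of `X_c` meet, with the sum of their two exponents prime to `n`, and
the other curves have good reduction; there is no condition if `r_c = 3`.

Theorem (`SameInvariants`): in all tensor powers of the first cohomology the forms which are
fixed by the Galois group of `F` are exactly the linear combinations of absolute Hodge classes (or
motivated classes) over `F`, that is the reductive groups `G_(ℓ, F)(M)` and `𝒢_F(M)` have the same
invariants, for `M` the motive `⊕ h¹(A_c)`. So `G_(ℓ, F)(M) = 𝒢_F(M)` and
`G_(1, ℓ, F)(M) = 𝒢_(1, F)(M)`, for this `M` and then for all pure motives `M` in the Tannakian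
category which it generates (for prime degrees this category contains the motives of all products of
the curves `X_c`): Q1, with the component groups, the motivic Tate conjecture, and the
algebraic Sato-Tate conjecture. The second part of the theorem is the motivic Mumford-Tate
conjecture for them. No case of the Hodge conjecture or of the Tate conjecture is assumed.

Known theorems which are hypotheses: `AbelianVarietyTheorems` (Faltings; Deligne: Hodge classes are Tate
classes; the theorem on the centre of the Mumford-Tate group) and `MotivicClasses` (the Galois
group acts on the groups `closed m` of absolute Hodge classes over the algebraic closure through finite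
quotients, the invariant ones are those over `F`, and over the closure all Hodge classes are absolute
Hodge classes: Deligne; motivated: André).

Proof: by the theorem of MP_938ce2_ag.CyclicCoverings (the reflections and one Frobenius element give
the special linear Lie algebras of all eigenspaces in the annihilator Lie algebra of a Tate class) all
Tate classes are combinations of products of classes of degree two and determinants on
eigenspaces; the last span lines which are stable under the Mumford-Tate group, so that the theorem
on the centre applies. The invariants over `F` are obtained by traces.

The parts `t_EIG`, `t_REF` and `t_NUM` are by helper574, helper907 and helper884, the transition to the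
Mumford-Tate group (`mumfordTate_of_det`) by helper118.
-/

namespace Pool.Agent.Results.MP_d61fbb_ag.CyclicCoverings

open Pool.Agent.Y128.CV

/-- The motivic Galois group and the `ℓ`-adic monodromy group over the given field for products of
Jacobians of cyclic coverings of the line (`k` is the field of the `ℓ`-adic numbers, `Γ` the
Galois group of the given field, `Δ₀` that of a finite extension which contains the roots of unity). -/
theorem result {k Γ ι : Type} [Field k] [CharZero k] [Group Γ] [Fintype ι] [DecidableEq ι]
    {V : ι → Type} [∀ c, AddCommGroup (V c)] [∀ c, Module k (V c)]
    [∀ c, FiniteDimensional k (V c)] (C : ι → Covering) (ρ : ∀ c, Representation k Γ (V c))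
    (χ : Γ →* k) (ω : ∀ c, V c →ₗ[k] V c →ₗ[k] k) (σ : ∀ c, Module.End k (V c))
    (Δ₀ : Subgroup Γ) [Δ₀.FiniteIndex]
    (h : CyclicCoverings C (fun c => MonoidHom.comp (ρ c) Δ₀.subtype) (χ.comp Δ₀.subtype) ω σ)
    {W : ι → Type} [∀ c, AddCommGroup (W c)] [∀ c, Module ℚ (W c)]
    {T : Type} [AddCommGroup T] [Module ℂ T] (per : (∀ c, W c) →+ T) (j : ∀ c, W c →+ V c)
    (hA : AbelianVarietyTheorems per (comparison j) (rep ρ) (chi χ))
    (closed field : ∀ m, AddSubgroup (Forms (AlgebraicClosure k) (Total k V) m))
    (hM : MotivicClasses per (comparison j) (rep ρ) (chi χ) closed field) :
    SameInvariants (rep ρ) (chi χ) closed field :=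
  main_mot Pool.Agent.Y574.CY.t_EIG (Pool.Agent.Y907.CY.t_REF Pool.Agent.Y574.CY.t_EIG)
    Nm.t_NUM Δ₀ h hA hM

end Pool.Agent.Results.MP_d61fbb_ag.CyclicCoverings
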