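import Mathlib
import Pool.Agent.Y115.EW.Main

/-!
# The motivic Sato-Tate conjecture, at every prime `ℓ`, for motives of even weight with a place of
# maximally unipotent monodromy

Let `M` be a motive (in the sense of André, or for absolute Hodge cycles) over a number field `F`,
pure of even weight `2 w`, with a polarization, a symmetric form `φ` with multiplier `χ`; `V` is the
`ℓ`-adic realization of `M`, of dimension `n`, with the action `ρ` of the absolute Galois group of
`F`.  Nothing is assumed on the semisimplicity of the Galois action, on the Hodge numbers or on the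
motivic Galois group of `M`.  Suppose that

* there are three primes `p ≠ ℓ`, unramified in `F`, such that `M` has good reduction at the places
  above `p`, with Frobenius polynomials in `ℚ[X]` which are pure of weight `2 w`;
* there is a place `v₁` of `F` above a prime `p₁ ≠ ℓ` which is unramified in `F`, such that the
  monodromy of `M` at `v₁` is maximally unipotent (the inertia group acts unipotently and
  `N ^ (n - 1) ≠ 0` for the monodromy operator `N`), and at the other places above `p₁` the motive
  `M` has good reduction or maximally unipotent monodromy;
* if `n ≥ 5`, there is ONE place of good reduction with THREE multiplicatively independent Frobenius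
  eigenvalues, and four if `3 n ^ 2 + 3 = 5 m (m + 1)` for an integer `m` (for `n = 7`; the next odd
  `n` for which this happens is `193`).

Theorem.  Then `V` is irreducible for all subgroups of finite index of the Galois group, and the Tate
classes in all tensor powers of `M` are semi-invariants of the full group `GO(φ)` of similitudes
(`n` is odd, so that the multiplier of a similitude `g` is a square `ν ^ 2` with `det g = ν ^ n`, and
`GO(φ) = 𝔾_m × SO(φ)` is connected).  So `G_ℓ(M) = 𝒢(M) = GO(φ)`, and the kernels of the
multiplier `G_{1,ℓ}(M) = 𝒢_1(M) = O(φ)` are equal: the motivic Sato-Tate conjecture holds for `M`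
and `ℓ`.  If the places have at least two residue characteristics, this is so for ALL primes `ℓ`.

The third condition cannot be omitted: for `M = Sym ^ (n - 1) H^1(E)`, where `E` is an elliptic curve
with a place of multiplicative reduction, any three Frobenius eigenvalues are dependent; and for
`n = 7` there are motives with motivic Galois group `𝔾_m × G_2` and maximally unipotent monodromy
(Dettweiler, Reiter and Katz), for which any four Frobenius eigenvalues are dependent.  No Frobenius
torus of maximal rank is needed.

The proof.  (1) Irreducibility: the determinant of a stable subspace is a character with algebraic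
Frobenius values at three primes, so that its transfer to `ℚ` is up to finite order a power of the
cyclotomic character (`ℓ`-adic six exponentials theorem, proved in the library `Pool.Agent.Y115`); its
weights at `v₁` and at the places of good reduction are not compatible.  (2) The Lie algebra `L` of
the endomorphisms which kill all Tate tensors and preserve all virtually stable subspaces contains
`N`, hence (Jacobson-Morozov) a principal triple of `𝔰𝔬(φ)`, and the centralizer of `N` in
`L` has at least the dimension of the Frobenius torus.  It is spanned by `1` and by powers of `N`.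
If `L` contains `N ^ m` for some `m > 1` with `3 n ^ 2 + 3 ≠ 5 m (m + 1)`, then it contains `N ^ 3`
(for `n = 7` and `m = 5` one has the Lie algebra of type `G_2`), and then `(ad f) ^ 3 (N ^ 3)`, a
diagonal element with `p = (n - 1) / 2` different simple roots; so `L` contains all simple root
vectors of `𝔰𝔬(φ)`.  (3) The first fundamental theorem for `SO(φ)`.
-/

set_option autoImplicit false

namespace Pool.Agent.Results.MP_d61fbb_ag.EvenWeightMaxUnipotent

open NumberField IsDedekindDomain Polynomial Module Pool.Agent.Y114.GF Pool.Agent.Y115.EW

theorem result {F : Type} [Field F] [NumberField F] {n ℓ : ℕ} [Fact ℓ.Prime]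
    -- the `ℓ`-adic realization of `M`, of weight `2 w`, and the polarization
    (ρ : Rep F n ℓ) (φ : BForm n ℓ) (w : ℤ) (hρ : IsOrthogonal ρ φ w)
    -- places of good reduction
    (T : Set ℕ) (hT3 : 3 ≤ T.encard) (hT : ∀ p ∈ T, p.Prime ∧ p ≠ ℓ ∧ UnramifiedIn F p)
    (hgood : ∀ p ∈ T, ∀ v, Above v p → ∃ P, GoodPl ρ w v P)
    -- a place of maximally unipotent monodromy
    (p₁ : ℕ) (hp₁ : p₁.Prime ∧ p₁ ≠ ℓ ∧ UnramifiedIn F p₁) (v₁ : HeightOneSpectrum (𝓞 F))
    (hv₁ : Above v₁ p₁) (hmum : MumPl ρ v₁)
    (hall : ∀ v, Above v p₁ → MumPl ρ v ∨ ∃ P, GoodPl ρ w v P)
    -- independent Frobenius eigenvalues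
    (hind : 5 ≤ n → ∃ v₀ P₀, GoodPl ρ w v₀ P₀ ∧ IndepRoots 3 P₀ ∧
      ((∃ m, 3 * n ^ 2 + 3 = 5 * (m * (m + 1))) → IndepRoots 4 P₀)) :
    StronglyIrreducible ρ ∧ TateFormsSemiInvariant ρ φ w := by
  obtain ⟨h1, h2⟩ := mum ρ hρ T hT3 hT hgood hp₁ hv₁ hmum hall hind
  exact ⟨h1, fun m f hf g ν hg v => h2 m f hf g ν hg.1 hg.2 v⟩

end Pool.Agent.Results.MP_d61fbb_ag.EvenWeightMaxUnipotent
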