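import Pool.Agent.Y130.MM.Conv

/-!
# The motivic Sato-Tate conjecture for motives of any weight with isolated Frobenius eigenvalues

Let `M` be a motive (of André, or for absolute Hodge cycles) of arbitrary weight `w` over a finitely
generated field `k`, `N` a second motive, and let `G` be the group of the points of the motivic Galois
group of `M ⊕ N` (and of the Tate motives) with values in an algebraic closure `K` of `ℚ_ℓ`; the
Galois group `Γ` maps to `G` by `ι`, and `q` is the character of the Lefschetz motive, so that `q ^ w`
is the multiplier of the polarization of `M`.  As in the theorem for the motivic Mumford-Tate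
conjecture, the realization `V` of `M` is a direct summand of copies of a representation `T`, which is
the sum of subspaces `U c` stable under a subgroup `G₀` of finite index, irreducible under all
subgroups of finite index of `Γ`, paired by the polarization, which contain isolated eigenvectors of
Frobenius elements (and have independent determinants if they are not self-dual).

Here we determine the groups `G_{1,ℓ,k}` and `𝒢_{1,k}` themselves, over the given field `k`, including
their groups of components: the kernel of the multiplier on the motivic Galois group and the same for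
the Zariski closure of the image of `Γ` are the same if and only if in all tensor constructions the
vectors on which `Γ` acts through a power of `q` are vectors on which `G` acts through this power
(the invariants of the kernel are the sums of such semi-invariants; both groups are reductive).

THEOREM.  Suppose that `Γ` meets all cosets of `G₀` (the blocks `U c` are conjugate under `Γ` if they
are conjugate under `G`; nothing if `G₀ = G`).  Let `δ c` be the determinant of `G₀` on the block
`U c`.
(1) If `Γ₀ = ι ⁻¹ (G₀)` and `G₀` have the same semi-invariants in all the twists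
`E ⊗ ⨂_{c ∈ A} det (U c) (j)` with `E` in the tannakian category of `N` and sets `A` of ORTHOGONAL
blocks, then `Γ` and `G` have the same semi-invariants (with characters powers of `q`) in all
`Hom (M ^ n, E)`.  There are no orthogonal blocks if `w` is odd.
(2) This condition on rank one twists is also necessary if the blocks are stable under `G`.
(3) For `M` alone: the motivic Sato-Tate conjecture is true for `M` over `k`, as soon as the products of
the determinants of orthogonal blocks and of powers of `q` which are trivial on `Γ₀` are trivial
on `G₀` (these are motives of rank one and order two); for odd `w` there is no condition, except that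
the cyclotomic character has infinite order.

The proof.  The forms killed by the Lie algebras of the blocks are decomposed by commuting reflections
into sign eigenforms, and an element of `G₀` acts on such a form through a product of determinants of
orthogonal blocks and a power of `q`.
-/

namespace Pool.Agent.Results.MP_d61fbb_ag.IsolatedSatoTate

open Module Pool.Agent.Y130 Pool.Agent.Y130.MT Pool.Agent.Y130.MM

/-- **The motivic Sato-Tate conjecture for motives with isolated Frobenius eigenvalues.** -/
theorem result {K : Type} [Field K] [CharZero K] [IsAlgClosed K]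
    -- the Galois group, the motivic Galois group, and the character of the Lefschetz motive
    {Γ G : Type} [Group Γ] [Group G] (ι : Γ →* G) (q : G →* Kˣ)
    -- the motive `M` of weight `w`
    (w : ℕ) {V : Type} [AddCommGroup V] [Module K V] (ρ : Representation K G V)
    {T : Type} [AddCommGroup T] [Module K T] [FiniteDimensional K T] (τ : Representation K G T)
    (hV : SummandOfCopies τ ρ) (B : T →ₗ[K] T →ₗ[K] K) {C : Type} [Finite C]
    (U : C → Submodule K T) (star : C → C) (G₀ : Subgroup G) (H : Γ → Subgroup Kˣ)
    (hM : IsolatedMotive ι q w τ B U star G₀ H)
    -- the Galois group meets all cosets of `G₀`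
    (hG : ∀ g, ∃ s, (ι s)⁻¹ * g ∈ G₀)
    -- the determinants of the blocks
    (δ : C → G₀ →* Kˣ)
    (hδ : ∀ c (g : G₀), (δ c g : K) = LinearMap.det ((τ (g : G)).restrict (hM.stable g g.2 c)))
    -- the representations in the tannakian category of `N`
    {I : Type} (E : I → Type) [∀ i, AddCommGroup (E i)] [∀ i, Module K (E i)]
    [∀ i, FiniteDimensional K (E i)] (σ : ∀ i, Representation K G (E i))
    (hN : ∀ i, EigenvaluesIn ι H (σ i)) :
    ((∀ i (A : Finset C), (∀ c ∈ A, star c = c ∧ Even w) → ∀ j : ℤ,
        SameSemiinvariants (ι.subgroupComap G₀) ((σ i).comp G₀.subtype)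
          ((q.comp G₀.subtype) ^ j * ∏ c ∈ A, δ c)) →
      ∀ n i (j : ℤ), SameSemiinvariants ι (homRep n ρ (σ i)) (q ^ j)) ∧
    (∀ (a : T →ₗ[K] V) (b : V →ₗ[K] T), (∀ g x, b (ρ g x) = τ g (b x)) → (∀ x, b (a x) = x) →
      G₀ = ⊤ → (∀ n i (j : ℤ), SameSemiinvariants ι (homRep n ρ (σ i)) (q ^ j)) →
      ∀ i (A : Finset C) (j : ℤ),
        SameSemiinvariants (ι.subgroupComap G₀) ((σ i).comp G₀.subtype)
          ((q.comp G₀.subtype) ^ j * ∏ c ∈ A, δ c)) ∧
    ((∀ A : Finset C, (∀ c ∈ A, star c = c ∧ Even w) → ∀ j : ℤ,
        (∀ s (hs : ι s ∈ G₀), ((q.comp G₀.subtype) ^ j * ∏ c ∈ A, δ c) ⟨ι s, hs⟩ = 1) →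
        (q.comp G₀.subtype) ^ j * ∏ c ∈ A, δ c = 1) →
      ∀ n (j : ℤ), SameSemiinvariants ι (homRep n ρ (Representation.trivial K G K)) (q ^ j)) := by
  refine ⟨fun h n i j => ?_, fun a b hb hab hG₀ h i A j => ?_, fun h n j => ?_⟩
  · exact same_of_exactOn hG (exact_V hV hM (hN i) hδ
      (fun A hA j => exactOn_iff.2 (h i A hA j)) n j)
  · exact exactOn_iff.1 (of_exact hM hG₀ hb hab hδ A j fun n => h n i j)
  · refine same_of_exactOn hG (exact_V hV hM (fun F β hβ => ?_) hδ (fun A hA j e he g => ?_) n j)
    · obtain ⟨x, hx0, hx⟩ := hβ
      refine ⟨1, Subgroup.one_mem _, ?_⟩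
      have h1 : x = β * x := hx
      rw [Units.val_one]
      exact mul_right_cancel₀ hx0 (by rw [← h1, one_mul])
    · by_cases he0 : e = 0
      · rw [he0, map_zero, smul_zero]
      · have h1 := h A hA j fun s hs => by
          apply Units.ext
          have h2 : e = (((q.comp G₀.subtype) ^ j * ∏ c ∈ A, δ c : G₀ →* Kˣ) ⟨ι s, hs⟩ : K) * e :=
            he s hs
          rw [Units.val_one]
          exact mul_right_cancel₀ he0 (by rw [← h2, one_mul])
        rw [h1, MonoidHom.one_apply, Units.val_one, one_smul]
        rfl

end Pool.Agent.Results.MP_d61fbb_ag.IsolatedSatoTate
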