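import Pool.Agent.Y134.MR.Two

/-!
# The motivic Sato-Tate conjecture from two Frobenius polynomials

Let `M` be a motive (of André, or for absolute Hodge cycles) of even weight `2 m` over a finitely
generated field, `N` a second motive, and let `G` be the group of the points of the motivic Galois
group of `M ⊕ N` (and of the Tate motives) with values in an algebraic closure `K` of `K₀ = ℚ_ℓ`; the
Galois group `Γ` maps to `G` by `ι`, and `q` is the character of the Lefschetz motive. Let the
realization of `M`, with coefficients in `K`, be a direct summand `V` of a sum of copies of a
representation `T` of `G` with a symmetric form (for example `T = V`, with the polarization), which,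
twisted by `q ^ (- m)`, comes from a representation `F` of `Γ` over `K₀` (`IsEvenMotive`: the `ℓ`-adic
realization, twisted to the weight zero). For two elements `g₁`, `g₂` of `Γ` (in the applications:
Frobenius elements at two places) let `(X - ε₁) R₁` and `(X - ε₂) R₂` be the characteristic
polynomials on `F`, where `ε₁ = 1` or `ε₁ = -1` (if the dimension is odd, `1` or `-1` is an eigenvalue
of every isometry). Suppose (`TwoPolynomials`, `IsolatedRoot`):

* `R₁` is irreducible over `K₀`, its degree is not `1`, and no quotient of two different roots of
  `(X - ε₁) R₁` is a root of unity;
* `1` and `-1` are not roots of `R₂`, and `R₁(1) R₁(-1) R₂(1) R₂(-1)` is not a square in `K₀`;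
* one root `a` of `(X - ε₁) R₁` is isolated (`~` is the equality up to a root of unity):
  `a δ ~ β γ` for roots `β`, `γ`, `δ` only if `β = a` or `γ = a` or `a δ ~ 1`; and no power
  `(β / a) ^ n`, `n > 0`, for a root `β ≠ a` is in a group `H g₁` of numbers which contains `q g₁` and
  the eigenvalues of `g₁` on the given representations `E i` (the tannakian category of `N`).

So all the conditions are conditions on two Frobenius polynomials. NOTHING is supposed about the image of
the Galois group (irreducibility, semisimplicity, monodromy), about Hodge numbers or inertia
groups, and there is no condition on `N` except for the independence of the eigenvalues.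

**Theorem.**

* (`StronglyIrreducible`) `T` is irreducible over the algebraically closed field under all subgroups
  of finite index of the Galois group.
* All Tate classes in all the representations `Hom (M ^ n, E i)` and their Tate twists are motivated if
  and only if this is true for the `E i`: the motivic Mumford-Tate conjecture holds for `M ⊕ N`
  if and only if it holds for `N`.
* In particular, the motivic Mumford-Tate conjecture holds for `M` (if the character `q` has infinite
  order on `Γ`).
* If moreover the Galois group maps onto all finite quotients of the motivic Galois group (which is
  always true, since a motive with a finite motivic Galois group is an Artin motive) then the motivic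
  Tate conjecture and the motivic Sato-Tate conjecture hold for `M`, without an extension of the
  field (`SameTateClasses`): every vector in a tensor construction `Hom (M ^ n, 1)` on which the Galois
  group acts through a power of `q` is a vector on which the motivic Galois group acts through the same
  power of `q`. (The two groups are reductive here, so that this is the equality
  `G_{ℓ,k}(M) = 𝒢_k(M)`, and hence of the kernels of the multipliers, the equality in Q1 of the
  problem.)

This applies, for instance, to the transcendental part `M` of the cohomology of a surface or of a
variety of even dimension, when its rank is odd.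

Proof. The eigenvector of `g₁` for `ε₁` is not isotropic. By the irreducibility of `R₁` and the condition
on the quotients, its orbit under a subgroup of finite index spans `F`, or its line is stable under
`Γ`; but in the second case both `f - f⁻¹` for the two isometries are alternating on the
complement of the line, so that the product of their determinants, which are `R_i(1) R_i(-1)`, would
be a square. So every subspace of `T` over the algebraically closed field which is stable under a
subgroup of finite index contains this vector (and then it is everything), or is orthogonal to it (and
then its orthogonal complement is everything). With this strong irreducibility and the isolated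
root the theorem `IsolatedMotives` can be applied. For the last part, a vector on which `Γ` acts
through `q ^ j` is a vector on which a subgroup of finite index of `G` acts through `q ^ j`, and this
subgroup and the image of `Γ` generate `G`.
-/

set_option autoImplicit false

namespace Pool.Agent.Results.MP_d61fbb_ag.TwoFrobeniusMotives

open Polynomial Pool.Agent.Y130.MT Pool.Agent.Y130.MM Pool.Agent.Y134.TF Pool.Agent.Y134.MR

/-- **The motivic Sato-Tate conjecture from two Frobenius polynomials.** -/
theorem result {K₀ K : Type} [Field K₀] [CharZero K₀] [Field K] [CharZero K] [IsAlgClosed K]
    [Algebra K₀ K]
    -- the Galois group, the motivic Galois group, and the character of the Lefschetz motive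
    {Γ G : Type} [Group Γ] [Group G] (ι : Γ →* G) (q : G →* Kˣ)
    -- the motive `M` of weight `2 m`
    (m : ℕ) {V : Type} [AddCommGroup V] [Module K V] (ρ : Representation K G V)
    {T : Type} [AddCommGroup T] [Module K T] [FiniteDimensional K T] (τ : Representation K G T)
    (hV : SummandOfCopies τ ρ) (B : T →ₗ[K] T →ₗ[K] K) (F : FormRep K₀ Γ) (j : F.V →+ T)
    (hM : IsEvenMotive ι q m τ B F j)
    -- the two Frobenius polynomials
    (g₁ g₂ : Γ) (ε₁ : K₀) (R₁ : K₀[X]) (ε₂ : K₀) (R₂ : K₀[X])
    (h2 : TwoPolynomials K F.rep g₁ g₂ ε₁ R₁ ε₂ R₂)
    (H : Γ → Subgroup Kˣ) (hH : ∀ s, q (ι s) ∈ H s)
    (a : K) (ha : IsolatedRoot ((X - C ε₁) * R₁) (valSet (H g₁)) a)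
    -- the representations in the tannakian category of `N`
    {I : Type} (E : I → Type) [∀ i, AddCommGroup (E i)] [∀ i, Module K (E i)]
    [∀ i, FiniteDimensional K (E i)] (σ : ∀ i, Representation K G (E i))
    (hN : ∀ i, EigenvaluesIn ι H (σ i)) :
    StronglyIrreducible ι τ ∧
    ((∀ n i, TateMotivated ι q (homRep n ρ (σ i))) ↔ ∀ i, TateMotivated ι q (σ i)) ∧
    (InfiniteOrder ι q → ∀ n, TateMotivated ι q (homRep n ρ (Representation.trivial K G K))) ∧
    (InfiniteOrder ι q → OntoQuotients ι →
      ∀ n, SameTateClasses ι q (homRep n ρ (Representation.trivial K G K))) := by
  obtain ⟨v, hv⟩ := good_of_two hM h2
  have hI := isolatedMotive (H := H) hM hv (g₁ := g₁) (a := a) (by rw [h2.charpoly₁]; exact ha)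
    (simple_of_two h2 ha.root) hH
  exact ⟨stronglyIrreducible hM hv, motivated_iff hV hI hN,
    fun hq n => motivated_trivial hV hI hq n,
    fun hq hι n => same_of_motivated hι (motivated_trivial hV hI hq n)⟩

end Pool.Agent.Results.MP_d61fbb_ag.TwoFrobeniusMotives
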